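import Pool.Agent.Helper22.AM.Defs2
import Pool.Agent.Helper22.AE.E0

/-!
# AM, block C4: almost no resonances
-/

open MeasureTheory Real Set Filter Topology

set_option autoImplicit false

namespace Pool.Agent.Helper14.AM

open Pool.Agent.Helper22.AE
open Pool.Agent.Helper22.AM

private lemma nk_cos (k : ℤ × ℤ) : nk k * cos (tk k) = k.1 := by
  unfold nk tk
  rw [Complex.norm_mul_cos_arg]
  rfl

private lemma nk_sin (k : ℤ × ℤ) : nk k * sin (tk k) = k.2 := by
  unfold nk tk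
  rw [Complex.norm_mul_sin_arg]
  rfl

/-- the linear part of the resonance sum -/
private noncomputable def lin (L : ℕ) {q : ℕ} (s : Fin q → ℤ) (k : Fin q → ℤ × ℤ) : ((Fin L → ℝ) × (Fin L → ℝ)) →ₗ[ℝ] ℝ where
  toFun w := ∑ i, (s i : ℝ) * (nk (k i) * ∑ l : Fin L, (w.1 l * cos ((l : ℕ) * tk (k i)) + w.2 l * sin ((l : ℕ) * tk (k i))))
  map_add' w w' := by
    rw [← Finset.sum_add_distrib]
    refine Finset.sum_congr rfl fun i _ => ?_
    rw [← mul_add, ← mul_add, ← Finset.sum_add_distrib]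
    congr 2
    refine Finset.sum_congr rfl fun l _ => ?_
    simp only [Prod.fst_add, Prod.snd_add, Pi.add_apply]
    ring
  map_smul' c w := by
    rw [RingHom.id_apply, smul_eq_mul, Finset.mul_sum]
    refine Finset.sum_congr rfl fun i _ => ?_
    have h : ∑ l : Fin L, ((c • w).1 l * cos ((l : ℕ) * tk (k i)) + (c • w).2 l * sin ((l : ℕ) * tk (k i))) =
        c * ∑ l : Fin L, (w.1 l * cos ((l : ℕ) * tk (k i)) + w.2 l * sin ((l : ℕ) * tk (k i))) := by
      rw [Finset.mul_sum]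
      refine Finset.sum_congr rfl fun l _ => ?_
      simp only [Prod.smul_fst, Prod.smul_snd, Pi.smul_apply, smul_eq_mul]
      ring
    rw [h]
    ring

private lemma lin_ne {L : ℕ} (hL : 2 ≤ L) {q : ℕ} (s : Fin q → ℤ) (k : Fin q → ℤ × ℤ) (h : ∑ i, s i • k i ≠ 0) :
    lin L s k ≠ 0 := by
  intro h0
  apply h
  have h1 : ∑ i, (s i : ℝ) * ((k i).1 : ℝ) = 0 := by
    have e := LinearMap.congr_fun h0 ((Pi.single (⟨1, by omega⟩ : Fin L) (1 : ℝ), 0) : (Fin L → ℝ) × (Fin L → ℝ))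
    simp only [lin, LinearMap.coe_mk, AddHom.coe_mk, LinearMap.zero_apply, Pi.zero_apply, zero_mul, add_zero] at e
    rw [← e]
    refine Finset.sum_congr rfl fun i _ => ?_
    rw [Finset.sum_eq_single (⟨1, by omega⟩ : Fin L)]
    · rw [Pi.single_eq_same, one_mul, Nat.cast_one, one_mul, nk_cos]
    · intro l _ hl
      rw [Pi.single_eq_of_ne hl, zero_mul]
    · intro hh
      exact absurd (Finset.mem_univ _) hh
  have h2 : ∑ i, (s i : ℝ) * ((k i).2 : ℝ) = 0 := by
    have e := LinearMap.congr_fun h0 ((0, Pi.single (⟨1, by omega⟩ : Fin L) (1 : ℝ)) : (Fin L → ℝ) × (Fin L → ℝ))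
    simp only [lin, LinearMap.coe_mk, AddHom.coe_mk, LinearMap.zero_apply, Pi.zero_apply, zero_mul, zero_add] at e
    rw [← e]
    refine Finset.sum_congr rfl fun i _ => ?_
    rw [Finset.sum_eq_single (⟨1, by omega⟩ : Fin L)]
    · rw [Pi.single_eq_same, one_mul, Nat.cast_one, one_mul, nk_sin]
    · intro l _ hl
      rw [Pi.single_eq_of_ne hl, zero_mul]
    · intro hh
      exact absurd (Finset.mem_univ _) hh
  refine Prod.ext ?_ ?_
  · rw [Prod.fst_sum, Prod.fst_zero]
    have h3 : ∑ i, s i * (k i).1 = 0 := by exact_mod_cast h1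
    rw [← h3]
    exact Finset.sum_congr rfl fun i _ => by simp
  · rw [Prod.snd_sum, Prod.snd_zero]
    have h3 : ∑ i, s i * (k i).2 = 0 := by exact_mod_cast h2
    rw [← h3]
    exact Finset.sum_congr rfl fun i _ => by simp

private lemma sum_eq {L : ℕ} (H₀ : ℝ → ℝ) (w : (Fin L → ℝ) × (Fin L → ℝ)) {q : ℕ} (s : Fin q → ℤ) (k : Fin q → ℤ × ℤ) :
    ∑ i, (s i : ℝ) * (nk (k i) * Hw H₀ w (tk (k i))) = ∑ i, (s i : ℝ) * (nk (k i) * H₀ (tk (k i))) + lin L s k w := by
  simp only [lin, LinearMap.coe_mk, AddHom.coe_mk]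
  rw [← Finset.sum_add_distrib]
  refine Finset.sum_congr rfl fun i _ => ?_
  unfold Hw
  ring

/-- a level set of a nonzero linear form is a null set -/
private lemma null_of {L : ℕ} (f : ((Fin L → ℝ) × (Fin L → ℝ)) →ₗ[ℝ] ℝ) (hf : f ≠ 0) (a : ℝ) :
    (gm L) {w | a + f w = 0} = 0 := by
  have hac : gm L ≪ volume := withDensity_absolutelyContinuous _ _
  apply hac
  rcases Set.eq_empty_or_nonempty {w | a + f w = 0} with he | ⟨w0, hw0⟩
  · rw [he, measure_empty]
  · refine measure_mono_null (t := (AffineSubspace.mk' w0 (LinearMap.ker f) : Set ((Fin L → ℝ) × (Fin L → ℝ)))) ?_ ?_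
    · intro w hw
      rw [SetLike.mem_coe, AffineSubspace.mem_mk', LinearMap.mem_ker, vsub_eq_sub, map_sub]
      have h1 : a + f w0 = 0 := hw0
      have h2 : a + f w = 0 := hw
      linarith
    · have : (volume : Measure ((Fin L → ℝ) × (Fin L → ℝ))).IsAddHaarMeasure := Measure.prod.instIsAddHaarMeasure _ _
      apply Measure.addHaar_affineSubspace
      intro htop
      have h1 := congrArg AffineSubspace.direction htop
      rw [AffineSubspace.direction_mk', AffineSubspace.direction_top] at h1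
      exact hf (LinearMap.ker_eq_top.1 h1)

/-- C4: almost no resonances -/
theorem res_ae {L : ℕ} (hL : 2 ≤ L) (H₀ : ℝ → ℝ) : ∀ᵐ w ∂(gm L), Res (Hw H₀ w) := by
  have h : ∀ᵐ w ∂(gm L), ∀ (q : ℕ) (p : (Fin q → ℤ) × (Fin q → ℤ × ℤ)),
      ∑ i, (p.1 i : ℝ) * (nk (p.2 i) * Hw H₀ w (tk (p.2 i))) = 0 → ∑ i, p.1 i • p.2 i = 0 := by
    rw [ae_all_iff]
    intro q
    rw [ae_all_iff]
    rintro ⟨s, k⟩
    by_cases h0 : ∑ i, s i • k i = 0
    · exact Eventually.of_forall fun w _ => h0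
    · have h1 := null_of (lin L s k) (lin_ne hL s k h0) (∑ i, (s i : ℝ) * (nk (k i) * H₀ (tk (k i))))
      rw [← compl_mem_ae_iff] at h1
      filter_upwards [h1] with w hw h2
      exact absurd (by rw [mem_setOf_eq, ← sum_eq]; exact h2) hw
  filter_upwards [h] with w hw q s k
  exact hw q (s, k)

end Pool.Agent.Helper14.AM
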